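import Mathlib

set_option autoImplicit false

/-!
# Project VB, part RNA: coherent embeddings of the residue fields of a ring with `x ^ m = x`
-/

namespace Pool.Agent.N584.VB

section

variable {p : ℕ} [Fact p.Prime] {R : Type} [CommRing R]

/-- the algebraic closure of the prime field -/
abbrev KK (p : ℕ) [Fact p.Prime] : Type := AlgebraicClosure (ZMod p)

/-- extension of a homomorphism with given kernels -/
theorem extend {m : ℕ} (hm : 2 ≤ m) (hx : ∀ x : R, x ^ m = x) (A : Subring R) (P : Ideal R) (hP : P.IsPrime)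
    (φ : A →+* KK p) (hφ : ∀ a : A, φ a = 0 ↔ (a : R) ∈ P) :
    ∃ θ : R →+* KK p, (∀ x, θ x = 0 ↔ x ∈ P) ∧ ∀ a : A, θ a = φ a := by
  classical
  set Q : Ideal A := P.comap A.subtype with hQ
  have : Q.IsPrime := Ideal.IsPrime.comap A.subtype
  have hφQ : ∀ a : A, a ∈ Q → φ a = 0 := fun a ha => (hφ a).2 ha
  let ι : (A ⧸ Q) →+* (R ⧸ P) := Ideal.quotientMap P A.subtype le_rfl
  have hι : Function.Injective ι := Ideal.quotientMap_injective
  let ψ : (A ⧸ Q) →+* KK p := Ideal.Quotient.lift Q φ hφQ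
  have hψ : Function.Injective ψ := by
    rw [injective_iff_map_eq_zero]
    intro a ha
    obtain ⟨a, rfl⟩ := Ideal.Quotient.mk_surjective a
    rw [Ideal.Quotient.lift_mk] at ha
    exact Ideal.Quotient.eq_zero_iff_mem.2 ((hφ a).1 ha)
  let : Algebra (A ⧸ Q) (R ⧸ P) := ι.toAlgebra
  let : Algebra (A ⧸ Q) (KK p) := ψ.toAlgebra
  have : Module.IsTorsionFree (A ⧸ Q) (R ⧸ P) := Module.isTorsionFree_iff_algebraMap_injective.2 hι
  have : Module.IsTorsionFree (A ⧸ Q) (KK p) := Module.isTorsionFree_iff_algebraMap_injective.2 hψ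
  have : Algebra.IsAlgebraic (A ⧸ Q) (R ⧸ P) := by
    refine ⟨fun x => ?_⟩
    obtain ⟨x, rfl⟩ := Ideal.Quotient.mk_surjective x
    refine ⟨Polynomial.X ^ m - Polynomial.X, ?_, ?_⟩
    · intro h0
      have h1 := congrArg (fun f => Polynomial.coeff f m) h0
      simp only [Polynomial.coeff_sub, Polynomial.coeff_X_pow, if_true, Polynomial.coeff_zero] at h1
      rw [Polynomial.coeff_X, if_neg (by omega), sub_zero] at h1
      exact one_ne_zero h1
    · rw [map_sub, map_pow, Polynomial.aeval_X, ← map_pow, hx, sub_self]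
  let f : (R ⧸ P) →ₐ[A ⧸ Q] KK p := IsAlgClosed.lift
  refine ⟨f.toRingHom.comp (Ideal.Quotient.mk P), fun x => ?_, fun a => ?_⟩
  · have hf : ∀ y, f (Ideal.Quotient.mk P y) = 0 → Ideal.Quotient.mk P y = 0 := by
      intro y hy
      by_contra hne
      obtain ⟨k, rfl⟩ : ∃ k, m = k + 2 := ⟨m - 2, by omega⟩
      have h1 : Ideal.Quotient.mk P y * (Ideal.Quotient.mk P y * Ideal.Quotient.mk P (y ^ k) - 1) = 0 := by
        rw [← map_mul, ← map_one (Ideal.Quotient.mk P), ← map_sub, ← map_mul]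
        have : y * (y * y ^ k - 1) = 0 := by
          have h2 := hx y
          calc y * (y * y ^ k - 1) = y ^ (k + 2) - y := by ring
            _ = 0 := by rw [h2, sub_self]
        rw [this, map_zero]
      rcases mul_eq_zero.1 h1 with h2 | h2
      · exact hne h2
      · have h3 := congrArg f (sub_eq_zero.1 h2)
        rw [map_mul, hy, zero_mul, map_one] at h3
        exact zero_ne_one h3
    change f (Ideal.Quotient.mk P x) = 0 ↔ _
    rw [← Ideal.Quotient.eq_zero_iff_mem]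
    exact ⟨hf x, fun h => by rw [h, map_zero]⟩
  · change f (Ideal.Quotient.mk P a) = φ a
    have h1 : Ideal.Quotient.mk P (a : R) = algebraMap (A ⧸ Q) (R ⧸ P) (Ideal.Quotient.mk Q a) := rfl
    rw [h1, f.commutes]
    rfl

/-- existence of an embedding with given kernel -/
theorem exists_hom [CharP R p] {m : ℕ} (hm : 2 ≤ m) (hx : ∀ x : R, x ^ m = x) (P : Ideal R) (hP : P.IsPrime) :
    ∃ θ : R →+* KK p, ∀ x, θ x = 0 ↔ x ∈ P := by
  have : Nontrivial R := CharP.nontrivial_of_char_ne_one (v := p) (Fact.out : p.Prime).ne_one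
  let c : ZMod p →+* R := ZMod.castHom dvd_rfl R
  have hc : Function.Injective c := c.injective
  let e : ZMod p ≃+* c.range := RingEquiv.ofBijective c.rangeRestrict
    ⟨fun a b h => hc (congrArg Subtype.val h), c.rangeRestrict_surjective⟩
  let φ : c.range →+* KK p := (algebraMap (ZMod p) (KK p)).comp e.symm.toRingHom
  have hφ : ∀ a : c.range, φ a = 0 ↔ (a : R) ∈ P := by
    intro a
    obtain ⟨z, rfl⟩ := e.surjective a
    have h1 : φ (e z) = algebraMap (ZMod p) (KK p) z := by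
      change algebraMap (ZMod p) (KK p) (e.symm (e z)) = _
      rw [RingEquiv.symm_apply_apply]
    have h2 : ((e z : c.range) : R) = c z := rfl
    rw [h1, h2, map_eq_zero]
    constructor
    · rintro rfl
      rw [map_zero]
      exact P.zero_mem
    · intro h3
      by_contra hz
      apply hP.ne_top
      rw [Ideal.eq_top_iff_one]
      have h4 : c z * c z⁻¹ = 1 := by rw [← map_mul, mul_inv_cancel₀ hz, map_one]
      rw [← h4]
      exact P.mul_mem_right _ h3
  obtain ⟨θ, h1, -⟩ := extend hm hx c.range P hP φ hφ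
  exact ⟨θ, h1⟩

/-- choice from a set which depends only on the set -/
noncomputable def pick (s : Set (KK p)) : KK p :=
  open Classical in if h : s.Nonempty then h.some else 0

theorem pick_mem {s : Set (KK p)} (h : s.Nonempty) : pick s ∈ s := by
  unfold pick
  rw [dif_pos h]
  exact h.some_mem

/-- the values of the coherent embedding at the elements of an enumeration -/
noncomputable def v (f : ℕ → R) (P : Ideal R) (n : ℕ) : KK p :=
  pick {c | ∃ θ : R →+* KK p, (∀ x, θ x = 0 ↔ x ∈ P) ∧ (∀ i, (h : i < n) → θ (f i) = v f P i) ∧ θ (f n) = c}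
termination_by n
decreasing_by exact h

theorem v_spec [CharP R p] {m : ℕ} (hm : 2 ≤ m) (hx : ∀ x : R, x ^ m = x) (f : ℕ → R) (P : Ideal R) (hP : P.IsPrime)
    (n : ℕ) : ∃ θ : R →+* KK p, (∀ x, θ x = 0 ↔ x ∈ P) ∧ ∀ i < n, θ (f i) = v f P i := by
  induction n with
  | zero =>
    obtain ⟨θ, h⟩ := exists_hom (p := p) hm hx P hP
    exact ⟨θ, h, fun i hi => absurd hi (Nat.not_lt_zero i)⟩
  | succ n ih =>
    obtain ⟨θ, h1, h2⟩ := ih
    have h3 : (v f P n : KK p) ∈ {c | ∃ θ : R →+* KK p, (∀ x, θ x = 0 ↔ x ∈ P) ∧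
        (∀ i, (h : i < n) → θ (f i) = v f P i) ∧ θ (f n) = c} := by
      rw [v]
      exact pick_mem ⟨θ (f n), θ, h1, h2, rfl⟩
    obtain ⟨θ', h4, h5, h6⟩ := h3
    refine ⟨θ', h4, fun i hi => ?_⟩
    rcases Nat.lt_succ_iff_lt_or_eq.1 hi with h | rfl
    · exact h5 i h
    · exact h6

/-- the values depend only on the trace of the prime ideal on a subring which contains the elements -/
theorem v_dep {m : ℕ} (hm : 2 ≤ m) (hx : ∀ x : R, x ^ m = x) (f : ℕ → R) (A : Subring R)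
    (P P' : Ideal R) (hP : P.IsPrime) (hP' : P'.IsPrime) (h : ∀ a ∈ A, a ∈ P ↔ a ∈ P') (n : ℕ) :
    (∀ i ≤ n, f i ∈ A) → (v f P n : KK p) = v f P' n := by
  induction n using Nat.strong_induction_on with
  | _ n ih =>
    intro hA
    have key : ∀ (P P' : Ideal R), P'.IsPrime → (∀ a ∈ A, a ∈ P ↔ a ∈ P') →
        (∀ i < n, (v f P i : KK p) = v f P' i) → ∀ c : KK p,
        (∃ θ : R →+* KK p, (∀ x, θ x = 0 ↔ x ∈ P) ∧ (∀ i, (h : i < n) → θ (f i) = v f P i) ∧ θ (f n) = c) →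
        ∃ θ : R →+* KK p, (∀ x, θ x = 0 ↔ x ∈ P') ∧ (∀ i, (h : i < n) → θ (f i) = v f P' i) ∧ θ (f n) = c := by
      rintro P P' hP' hPP hv c ⟨θ, h1, h2, h3⟩
      obtain ⟨θ', h4, h5⟩ := extend hm hx A P' hP' (θ.comp A.subtype)
        (fun a => (h1 _).trans (hPP a a.2))
      refine ⟨θ', h4, fun i hi => ?_, ?_⟩
      · rw [← hv i hi, ← h2 i hi]
        exact h5 ⟨f i, hA i hi.le⟩
      · rw [← h3]
        exact h5 ⟨f n, hA n le_rfl⟩
    have hv : ∀ i < n, (v f P i : KK p) = v f P' i := fun i hi => ih i hi fun j hj => hA j (hj.trans hi.le)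
    rw [v, v]
    congr 1
    ext c
    exact ⟨key P P' hP' h hv c, key P' P hP (fun a ha => (h a ha).symm) (fun i hi => (hv i hi).symm) c⟩

/-- subrings with finitely many generators are finite -/
theorem fin_sub [CharP R p] {m : ℕ} (hm : 2 ≤ m) (hx : ∀ x : R, x ^ m = x) (s : Set R) (hs : s.Finite) :
    ∃ A : Subring R, s ⊆ A ∧ (A : Set R).Finite := by
  let : Algebra (ZMod p) R := ZMod.algebra R p
  have hint : ∀ x ∈ s, IsIntegral (ZMod p) x := by
    intro x _
    refine ⟨Polynomial.X ^ m - Polynomial.X, ?_, ?_⟩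
    · exact Polynomial.monic_X_pow_sub (by rw [Polynomial.degree_X]; exact_mod_cast (by omega : 1 < m))
    · rw [Polynomial.eval₂_sub, Polynomial.eval₂_X_pow, Polynomial.eval₂_X, hx, sub_self]
  have h1 := fg_adjoin_of_finite hs hint
  have h2 : Module.Finite (ZMod p) (Algebra.adjoin (ZMod p) s) := Module.Finite.iff_fg.2 h1
  have h3 : Finite (Algebra.adjoin (ZMod p) s) := Module.finite_of_finite (ZMod p)
  exact ⟨(Algebra.adjoin (ZMod p) s).toSubring, Algebra.subset_adjoin, Set.toFinite _⟩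

/-- a ring with `x ^ m = x` has no nilpotent elements -/
theorem eq_zero_of_mem {m : ℕ} (hm : 2 ≤ m) (hx : ∀ x : R, x ^ m = x) (x : R)
    (h : ∀ P : Ideal R, P.IsPrime → x ∈ P) : x = 0 := by
  have h1 : IsNilpotent x := nilpotent_iff_mem_prime.2 h
  obtain ⟨k, rfl⟩ : ∃ k, m = k + 2 := ⟨m - 2, by omega⟩
  have h2 : IsUnit (1 - x ^ (k + 1)) := (h1.pow_succ k).isUnit_one_sub
  have h3 : x * (1 - x ^ (k + 1)) = 0 := by
    calc x * (1 - x ^ (k + 1)) = x - x ^ (k + 2) := by ring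
      _ = 0 := by rw [hx, sub_self]
  exact (h2.mul_left_eq_zero).1 h3

/-- the coherent embeddings -/
theorem exists_s [CharP R p] [Countable R] {m : ℕ} (hm : 2 ≤ m) (hx : ∀ x : R, x ^ m = x) :
    ∃ s : PrimeSpectrum R → R →+* KK p, (∀ P x, s P x = 0 ↔ x ∈ P.asIdeal) ∧
      ∀ x : R, ∃ F : Set R, F.Finite ∧
        ∀ P P' : PrimeSpectrum R, (∀ a ∈ F, a ∈ P.asIdeal ↔ a ∈ P'.asIdeal) → s P x = s P' x := by
  classical
  obtain ⟨f, hf⟩ := exists_surjective_nat R
  choose g hg using hf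
  have hs : ∀ (P : PrimeSpectrum R) (x y z : R), ∃ θ : R →+* KK p, (∀ x, θ x = 0 ↔ x ∈ P.asIdeal) ∧
      θ x = v f P.asIdeal (g x) ∧ θ y = v f P.asIdeal (g y) ∧ θ z = v f P.asIdeal (g z) := by
    intro P x y z
    obtain ⟨θ, h1, h2⟩ := v_spec (p := p) hm hx f P.asIdeal P.isPrime (g x + g y + g z + 1)
    refine ⟨θ, h1, ?_, ?_, ?_⟩
    · rw [← h2 (g x) (by omega), hg]
    · rw [← h2 (g y) (by omega), hg]
    · rw [← h2 (g z) (by omega), hg]
  let s : PrimeSpectrum R → R →+* KK p := fun P =>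
    { toFun := fun x => v f P.asIdeal (g x)
      map_one' := by
        obtain ⟨θ, -, h, -, -⟩ := hs P 1 1 1
        rw [← h, map_one]
      map_mul' := fun x y => by
        obtain ⟨θ, -, h1, h2, h3⟩ := hs P x y (x * y)
        rw [← h1, ← h2, ← h3, map_mul]
      map_zero' := by
        obtain ⟨θ, -, h, -, -⟩ := hs P 0 0 0
        rw [← h, map_zero]
      map_add' := fun x y => by
        obtain ⟨θ, -, h1, h2, h3⟩ := hs P x y (x + y)
        rw [← h1, ← h2, ← h3, map_add] }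
  refine ⟨s, fun P x => ?_, fun x => ?_⟩
  · obtain ⟨θ, h0, h, -, -⟩ := hs P x x x
    change v f P.asIdeal (g x) = 0 ↔ _
    rw [← h]
    exact h0 x
  · obtain ⟨A, hA1, hA2⟩ := fin_sub (p := p) hm hx (f '' {i | i ≤ g x}) ((Set.finite_le_nat (g x)).image f)
    refine ⟨A, hA2, fun P P' hPP => ?_⟩
    change v f P.asIdeal (g x) = v f P'.asIdeal (g x)
    exact v_dep hm hx f A P.asIdeal P'.asIdeal P.isPrime P'.isPrime hPP (g x)
      fun i hi => hA1 ⟨i, hi, rfl⟩

/-- clopen sets are given by idempotents -/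
theorem exists_idem {m : ℕ} (hm : 2 ≤ m) (hx : ∀ x : R, x ^ m = x)
    (s : PrimeSpectrum R → R →+* KK p) (hs : ∀ P x, s P x = 0 ↔ x ∈ P.asIdeal) (F : Finset R) :
    ∀ U : PrimeSpectrum R → Prop,
      (∀ P P' : PrimeSpectrum R, (∀ a ∈ F, a ∈ P.asIdeal ↔ a ∈ P'.asIdeal) → (U P ↔ U P')) →
      ∃ e : R, ∀ P, (U P → s P e = 1) ∧ (¬ U P → s P e = 0) := by
  classical
  induction F using Finset.induction_on with
  | empty =>
    intro U hU
    by_cases h : ∃ P, U P
    · obtain ⟨P₀, h0⟩ := h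
      refine ⟨1, fun P => ⟨fun _ => map_one _, fun h1 => absurd ((hU P₀ P ?_).1 h0) h1⟩⟩
      intro a ha
      exact absurd ha (Finset.notMem_empty a)
    · exact ⟨0, fun P => ⟨fun h1 => absurd ⟨P, h1⟩ h, fun _ => map_zero _⟩⟩
  | insert y F hy ih =>
    intro U hU
    have key : ∀ q : Prop, ∀ P P' : PrimeSpectrum R, (∀ a ∈ F, a ∈ P.asIdeal ↔ a ∈ P'.asIdeal) →
        (∃ P'' : PrimeSpectrum R, (∀ a ∈ F, a ∈ P''.asIdeal ↔ a ∈ P.asIdeal) ∧ (y ∈ P''.asIdeal ↔ q) ∧ U P'') →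
        ∃ P'' : PrimeSpectrum R, (∀ a ∈ F, a ∈ P''.asIdeal ↔ a ∈ P'.asIdeal) ∧ (y ∈ P''.asIdeal ↔ q) ∧ U P'' := by
      rintro q P P' h ⟨P'', h1, h2, h3⟩
      exact ⟨P'', fun a ha => (h1 a ha).trans (h a ha), h2, h3⟩
    have h1 : ∀ q : Prop, ∃ e : R, ∀ P : PrimeSpectrum R,
        ((∃ P'' : PrimeSpectrum R, (∀ a ∈ F, a ∈ P''.asIdeal ↔ a ∈ P.asIdeal) ∧ (y ∈ P''.asIdeal ↔ q) ∧ U P'') →
          s P e = 1) ∧
        ((¬ ∃ P'' : PrimeSpectrum R, (∀ a ∈ F, a ∈ P''.asIdeal ↔ a ∈ P.asIdeal) ∧ (y ∈ P''.asIdeal ↔ q) ∧ U P'') →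
          s P e = 0) := by
      intro q
      exact ih _ fun P P' h => ⟨key q P P' h, key q P' P fun a ha => (h a ha).symm⟩
    obtain ⟨e1, he1⟩ := h1 True
    obtain ⟨e0, he0⟩ := h1 False
    refine ⟨(1 - y ^ (m - 1)) * e1 + y ^ (m - 1) * e0, fun P => ?_⟩
    have hUq : (∃ P'' : PrimeSpectrum R, (∀ a ∈ F, a ∈ P''.asIdeal ↔ a ∈ P.asIdeal) ∧
        (y ∈ P''.asIdeal ↔ (y ∈ P.asIdeal)) ∧ U P'') ↔ U P := by
      constructor
      · rintro ⟨P'', h2, h3, h4⟩
        refine (hU P'' P ?_).1 h4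
        intro a ha
        rcases Finset.mem_insert.1 ha with rfl | ha
        · exact h3
        · exact h2 a ha
      · intro h
        exact ⟨P, fun _ _ => Iff.rfl, Iff.rfl, h⟩
    by_cases hyP : y ∈ P.asIdeal
    · have h2 : s P y = 0 := (hs P y).2 hyP
      have h3 : s P ((1 - y ^ (m - 1)) * e1 + y ^ (m - 1) * e0) = s P e1 := by
        rw [map_add, map_mul, map_mul, map_sub, map_one, map_pow, h2, zero_pow (by omega), sub_zero, one_mul, zero_mul,
          add_zero]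
      simp only [hyP] at hUq
      rw [h3]
      exact ⟨fun h => (he1 P).1 (hUq.2 h), fun h => (he1 P).2 fun h' => h (hUq.1 h')⟩
    · have h2 : s P y ≠ 0 := fun h => hyP ((hs P y).1 h)
      have h4 : s P y ^ (m - 1) = 1 := by
        have h5 : s P y ^ (m - 1) * s P y = s P y := by
          rw [← pow_succ, Nat.sub_add_cancel (by omega), ← map_pow, hx]
        exact mul_right_cancel₀ h2 (by rw [h5, one_mul])
      have h3 : s P ((1 - y ^ (m - 1)) * e1 + y ^ (m - 1) * e0) = s P e0 := by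
        rw [map_add, map_mul, map_mul, map_sub, map_one, map_pow, h4, sub_self, zero_mul, one_mul, zero_add]
      simp only [hyP] at hUq
      rw [h3]
      exact ⟨fun h => (he0 P).1 (hUq.2 h), fun h => (he0 P).2 fun h' => h (hUq.1 h')⟩

end

end Pool.Agent.N584.VB
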