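import Pool.Agent.N641.VB.Stm7
import Pool.Agent.N584.VB.A

set_option autoImplicit false

/-!
# Project VB, part RNA: the theorem of Arens and Kaplansky for rings with `x ^ m = x`
-/

namespace Pool.Agent.N584.VB

open Pool.Agent.N641.VB

theorem RNA : S_RNA := by
  classical
  intro p _ m hm R _ _ _ hx
  obtain ⟨s, hs, hdep⟩ := exists_s (p := p) hm hx
  -- predicates of one value
  have hV : ∀ (x : R) (V : KK p → Prop), ∃ e : R, ∀ P, (V (s P x) → s P e = 1) ∧ (¬ V (s P x) → s P e = 0) := by
    intro x V
    obtain ⟨F, hF, h⟩ := hdep x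
    refine exists_idem (p := p) hm hx s hs hF.toFinset (fun P => V (s P x)) fun P P' hPP => ?_
    rw [h P P' fun a ha => hPP a (hF.mem_toFinset.2 ha)]
  have hev : ∀ (c : KC p m) (x : R), ∃ e : R, ∀ P, s P e = if s P x = c.1 then 1 else 0 := by
    intro c x
    obtain ⟨e, he⟩ := hV x (fun z => z = c.1)
    refine ⟨e, fun P => ?_⟩
    split_ifs with h
    · exact (he P).1 h
    · exact (he P).2 h
  choose ev hev using hev
  have eqP : ∀ u w : R, (∀ P, s P u = s P w) → u = w := by
    intro u w h
    refine sub_eq_zero.1 (eq_zero_of_mem hm hx (u - w) fun P hP => ?_)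
    rw [← hs ⟨P, hP⟩, map_sub, h, sub_self]
  have val : ∀ (P : PrimeSpectrum R) (x : R), (s P x) ^ m = s P x := fun P x => by rw [← map_pow, hx]
  have idemv : ∀ (P : PrimeSpectrum R) (b : R), b * b = b → s P b = 0 ∨ s P b = 1 := by
    intro P b hb
    have h1 : s P b * (s P b - 1) = 0 := by
      rw [mul_sub, mul_one, ← map_mul, hb, sub_self]
    rcases mul_eq_zero.1 h1 with h | h
    · exact Or.inl h
    · exact Or.inr (sub_eq_zero.1 h)
  have hpow : ∀ z : KK p, z ^ m = z → z ≠ 0 → z ^ (m - 1) = 1 := by
    intro z h1 h2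
    have h5 : z ^ (m - 1) * z = z := by
      rw [← pow_succ, Nat.sub_add_cancel (by omega), h1]
    exact mul_right_cancel₀ h2 (by rw [h5, one_mul])
  refine ⟨ev, ?_⟩
  constructor
  · -- idem
    intro c x
    apply eqP
    intro P
    rw [map_mul, hev]
    split_ifs <;> simp
  · -- orth
    intro c d x hcd
    apply eqP
    intro P
    rw [map_mul, hev, hev, map_zero]
    by_cases h1 : s P x = c.1
    · rw [if_pos h1, if_neg fun h2 => hcd (Subtype.ext (h1.symm.trans h2)), mul_zero]
    · rw [if_neg h1, zero_mul]
  · -- total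
    intro x b h
    apply eqP
    intro P
    have h1 := congrArg (s P) (h ⟨s P x, val P x⟩)
    rw [map_mul, hev, if_pos rfl, mul_one] at h1
    exact h1
  · -- inj
    intro x y h
    apply eqP
    intro P
    have h1 := congrArg (s P) (h ⟨s P x, val P x⟩)
    rw [hev, hev, if_pos rfl] at h1
    by_contra hne
    rw [if_neg fun h2 => hne h2.symm] at h1
    exact one_ne_zero h1
  · -- glue
    intro b x y c hb
    apply eqP
    intro P
    rw [map_add, map_mul, map_mul, map_sub, map_one, hev, hev, hev, map_add, map_mul, map_mul, map_sub, map_one]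
    rcases idemv P b hb with h | h
    · rw [h]; simp
    · rw [h]; simp
  · -- add
    intro c d e x y he
    apply eqP
    intro P
    rw [map_mul, map_mul, hev, hev, hev, map_add]
    by_cases h1 : s P x = c.1
    · by_cases h2 : s P y = d.1
      · rw [if_pos h1, if_pos h2, if_pos (by rw [h1, h2, he])]; simp
      · rw [if_neg h2]; simp
    · rw [if_neg h1]; simp
  · -- add'
    intro c d x y he
    apply eqP
    intro P
    rw [map_mul, hev, hev, map_zero]
    by_cases h1 : s P x = c.1
    · by_cases h2 : s P y = d.1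
      · exact absurd (by rw [map_add, h1, h2] : s P (x + y) = c.1 + d.1) (he ⟨s P (x + y), val P (x + y)⟩)
      · rw [if_neg h2, mul_zero]
    · rw [if_neg h1, zero_mul]
  · -- mul
    intro c d e x y he
    apply eqP
    intro P
    rw [map_mul, map_mul, hev, hev, hev, map_mul]
    by_cases h1 : s P x = c.1
    · by_cases h2 : s P y = d.1
      · rw [if_pos h1, if_pos h2, if_pos (by rw [h1, h2, he])]; simp
      · rw [if_neg h2]; simp
    · rw [if_neg h1]; simp
  · -- one
    intro x c hc hxx
    apply eqP
    intro P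
    rw [hev, hc]
    rcases idemv P x hxx with h | h
    · rw [h, if_neg zero_ne_one]
    · rw [h, if_pos rfl]
  · -- ideal
    intro c b hc hb
    have hcm : c.1 ^ (m - 1) = 1 := hpow c.1 c.2 hc
    have hN : 0 < orderOf c.1 := orderOf_pos_iff.2 (isOfFinOrder_iff_pow_eq_one.2 ⟨m - 1, by omega, hcm⟩)
    constructor
    · rintro ⟨x, hbx⟩
      have hxc : ∀ P, s P b = 1 → s P x = c.1 := by
        intro P h1
        have h2 := congrArg (s P) hbx
        rw [map_mul, hev, h1, one_mul] at h2
        by_contra h3
        rw [if_neg h3] at h2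
        exact zero_ne_one h2
      refine ⟨x, ?_, fun k hk1 hk2 => ⟨(x ^ k - 1) ^ (m - 2), ?_⟩⟩
      · apply eqP
        intro P
        rw [map_mul, map_pow]
        rcases idemv P b hb with h | h
        · rw [h, mul_zero]
        · rw [h, hxc P h, pow_orderOf_eq_one, mul_one]
      · apply eqP
        intro P
        rcases idemv P b hb with h | h
        · rw [map_mul, h, mul_zero]
        · have h1 : s P (x ^ k - 1) ≠ 0 := by
            rw [map_sub, map_pow, map_one, hxc P h]
            intro h2
            exact pow_ne_one_of_lt_orderOf hk1.ne' hk2 (sub_eq_zero.1 h2)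
          have h2 := hpow _ (val P (x ^ k - 1)) h1
          rw [map_mul, map_mul, map_pow, h, mul_one, ← pow_succ]
          rw [show m - 2 + 1 = m - 1 by omega]
          exact h2
    · rintro ⟨x, h1, h2⟩
      have hd : ∀ P, s P b = 1 → ∃ j < orderOf c.1, (s P x) ^ j = c.1 := by
        intro P hP
        have h3 : (s P x) ^ orderOf c.1 = 1 := by
          have := congrArg (s P) h1
          rw [map_mul, map_pow, hP, mul_one] at this
          exact this
        have h4 : ∀ k, 0 < k → k < orderOf c.1 → (s P x) ^ k ≠ 1 := by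
          intro k hk1 hk2 h5
          obtain ⟨y, hy⟩ := h2 k hk1 hk2
          have := congrArg (s P) hy
          rw [map_mul, map_mul, map_sub, map_pow, map_one, h5, sub_self, mul_zero, zero_mul, hP] at this
          exact zero_ne_one this
        have h5 : IsPrimitiveRoot (s P x) (orderOf c.1) := by
          refine IsPrimitiveRoot.mk_of_lt _ hN h3 h4
        have : NeZero (orderOf c.1) := ⟨hN.ne'⟩
        exact h5.eq_pow_of_pow_eq_one (pow_orderOf_eq_one c.1)
      have hE : ∀ j : ℕ, ∃ e : R, ∀ P, (((s P x) ^ j = c.1 ∧ ∀ i < j, (s P x) ^ i ≠ c.1) → s P e = 1) ∧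
          (¬ ((s P x) ^ j = c.1 ∧ ∀ i < j, (s P x) ^ i ≠ c.1) → s P e = 0) :=
        fun j => hV x (fun z => z ^ j = c.1 ∧ ∀ i < j, z ^ i ≠ c.1)
      choose e he using hE
      refine ⟨∑ j ∈ Finset.range (orderOf c.1), e j * x ^ j, ?_⟩
      apply eqP
      intro P
      rw [map_mul, hev]
      rcases idemv P b hb with h | h
      · rw [h, zero_mul]
      · obtain ⟨j, hj1, hj2⟩ := hd P h
        have hex : ∃ j, (s P x) ^ j = c.1 := ⟨j, hj2⟩
        have hfj : Nat.find hex ≤ j := Nat.find_min' hex hj2
        have hsum : s P (∑ j ∈ Finset.range (orderOf c.1), e j * x ^ j) = c.1 := by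
          rw [map_sum, Finset.sum_eq_single (Nat.find hex)]
          · rw [map_mul, map_pow, (he _ P).1 ⟨Nat.find_spec hex, fun i hi => Nat.find_min hex hi⟩, one_mul]
            exact Nat.find_spec hex
          · intro i _ hne
            rw [map_mul, (he i P).2, zero_mul]
            rintro ⟨h3, h4⟩
            rcases lt_or_gt_of_ne hne with h5 | h5
            · exact Nat.find_min hex h5 h3
            · exact h4 _ h5 (Nat.find_spec hex)
          · intro h3
            exact absurd (Finset.mem_range.2 (lt_of_le_of_lt hfj hj1)) h3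
        rw [if_pos hsum, mul_one]
  · -- zero
    intro c hc
    apply eqP
    intro P
    rw [hev, map_zero, hc, if_pos rfl, map_one]

end Pool.Agent.N584.VB
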